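import Pool.Agent.Y124.TD.Ap3

/-!
# The period conjecture in bounded degree for almost all members of arbitrary families of products of elliptic curves

Let `E_(j,t) : y² = x³ + a_j(t) x + b_j(t)`, `1 ≤ j ≤ k`, be arbitrary one-parameter families of elliptic curves over `ℚ(t)` with
nonconstant `j`-invariants (they may be equal, isogenous, with any bad fibres). For general `t = (t_1, …, t_k)` the Mumford-Tate
group of `X_t = E_(1,t_1) × ⋯ × E_(k,t_k)` has dimension `3 k + 1`. For all but `O(T ^ (k - c))` of the integral points `t` of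
`[1, T] ^ k` the transcendence degree of the field generated by the periods of `X_t` and by `2 π i` is `3 k + 1` up to any
given degree, over all number fields of bounded degree and with no bound on the heights; more generally it is
`3 k + q` over `q` arbitrary algebraically independent numbers (for instance a transcendence basis of the field of periods of
any other motive), with a bound for the number of exceptional tuples which does not depend on these numbers.
-/

set_option autoImplicit false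

open Module

namespace Pool.Agent.Results.MP_57341d_ag.AllEllipticFamilies

/-- For `v² = r - p` and `(q - p) / (r - p)` not in `[1, ∞)` this is the integral of `x ^ k dx / y` over the cycle of
`y² = (x - p)(x - q)(x - r)` around the segment from `p` to `q` (substitute `x = p + (q - p) sin² θ`). -/
noncomputable def per (p q v : ℂ) (k : ℕ) : ℂ :=
  4 / v * ∫ θ in (0 : ℝ)..(Real.pi / 2), (p + (q - p) * (Real.sin θ : ℂ) ^ 2) ^ k *
    (1 - (q - p) / v ^ 2 * (Real.sin θ : ℂ) ^ 2) ^ (-(1 / 2) : ℂ)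

/-- For the curve `y² = (x - e₀)(x - e₁)(x - e₂)` and a square root `v` of `e₁ - e₀`, these are the integrals of `dx / y`
and `x dx / y` (the columns) over the cycles around the segments from `e₀` to `e₂` and from `e₁` to `e₂` (the rows), which
form a basis of the homology. -/
noncomputable def periodMatrix (e : Fin 3 → ℂ) (v : ℂ) : Matrix (Fin 2) (Fin 2) ℂ :=
  !![per (e 0) (e 2) v 0, per (e 0) (e 2) v 1; per (e 1) (e 2) (-Complex.I * v) 0, per (e 1) (e 2) (-Complex.I * v) 1]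

/-- `A` is a period matrix of the elliptic curve `y² = x³ + a x + b`: the matrix of a numbering of the roots of
`x³ + a x + b` for which `(e₂ - e₀) / (e₁ - e₀)` is not in `(-∞, 0]` and not in `[1, ∞)`. -/
def IsPeriodMatrix (a b : ℂ) (A : Matrix (Fin 2) (Fin 2) ℂ) : Prop :=
  ∃ (e : Fin 3 → ℂ) (v : ℂ), (∀ x : ℂ, x ^ 3 + a * x + b = (x - e 0) * (x - e 1) * (x - e 2)) ∧ v ^ 2 = e 1 - e 0 ∧
    (e 2 - e 0) / (e 1 - e 0) ∈ Complex.slitPlane ∧ 1 - (e 2 - e 0) / (e 1 - e 0) ∈ Complex.slitPlane ∧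
    A = periodMatrix e v

/-- Some `r` of the entries of the matrices `P_1, …, P_k` and of the numbers `w_1, …, w_q` (at `r` different places) satisfy no
nonzero polynomial relation of degree at most `δ` in each unknown with coefficients in `K`. -/
def TrdegGe {k q : ℕ} (r δ : ℕ) (K : IntermediateField ℚ ℂ) (P : Fin k → Matrix (Fin 2) (Fin 2) ℂ) (w : Fin q → ℂ) : Prop :=
  ∃ σ : Fin r → (Fin k × Fin 2 × Fin 2) ⊕ Fin q, Function.Injective σ ∧
    ∀ Q : MvPolynomial (Fin r) K, (∀ i, Q.degreeOf i ≤ δ) →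
      MvPolynomial.aeval (fun i => Sum.elim (fun x => P x.1 x.2.1 x.2.2) w (σ i)) Q = 0 → Q = 0

/-- All the curves `y² = x³ + a_j(t_j) x + b_j(t_j)` have period matrices, and for all choices of period matrices `A_j`, all
number fields `K` of degree at most `D` and all changes of bases `R_j, S_j` over `K` the transcendence degree of the entries of
the matrices `R_j A_j S_j` and of the numbers `w` is at least `3 k + q` in degree at most `δ`. -/
def Generic {k q : ℕ} (a b : Fin k → Polynomial ℚ) (δ D : ℕ) (w : Fin q → ℂ) (t : Fin k → ℕ) : Prop :=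
  (∀ j, ∃ A, IsPeriodMatrix (((a j).eval (t j : ℚ) : ℚ) : ℂ) (((b j).eval (t j : ℚ) : ℚ) : ℂ) A) ∧
    ∀ A : Fin k → Matrix (Fin 2) (Fin 2) ℂ,
      (∀ j, IsPeriodMatrix (((a j).eval (t j : ℚ) : ℚ) : ℂ) (((b j).eval (t j : ℚ) : ℚ) : ℂ) (A j)) →
        ∀ (K : IntermediateField ℚ ℂ) [FiniteDimensional ℚ K], finrank ℚ K ≤ D →
          ∀ R S : Fin k → (Matrix (Fin 2) (Fin 2) K)ˣ,
            TrdegGe (3 * k + q) δ K (fun j => (R j : Matrix (Fin 2) (Fin 2) K).map (algebraMap K ℂ) * A j *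
              (S j : Matrix (Fin 2) (Fin 2) K).map (algebraMap K ℂ)) w

theorem per_zero (p q v : ℂ) : per p q v 0 = 4 / v * Y124.ellI (-(1 / 2)) ((q - p) / v ^ 2) := by
  rw [per, Y124.ellI]
  congr 1
  refine intervalIntegral.integral_congr fun θ _ => ?_
  simp only [pow_zero, one_mul]

theorem per_one (p q v : ℂ) (hv : v ≠ 0) (hD : 1 - (q - p) / v ^ 2 ∈ Complex.slitPlane) : per p q v 1 =
    4 / v * (p * Y124.ellI (-(1 / 2)) ((q - p) / v ^ 2) + v ^ 2 * (Y124.ellI (-(1 / 2)) ((q - p) / v ^ 2) -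
      Y124.ellI (1 / 2) ((q - p) / v ^ 2))) := by
  set m := (q - p) / v ^ 2 with hm
  have hqp : q - p = m * v ^ 2 := by
    rw [hm, div_mul_cancel₀ _ (pow_ne_zero _ hv)]
  have hz : ∀ θ : ℝ, 1 - m * (Real.sin θ : ℂ) ^ 2 ∈ Complex.slitPlane := fun θ => Y124.one_sub_mem hD θ
  have hci : ∀ s : ℂ, IntervalIntegrable (fun θ : ℝ => (1 - m * (Real.sin θ : ℂ) ^ 2) ^ s) MeasureTheory.volume 0
      (Real.pi / 2) := by
    intro s
    apply Continuous.intervalIntegrable
    have h1 : Continuous fun θ : ℝ => 1 - m * (Real.sin θ : ℂ) ^ 2 := by fun_prop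
    exact Continuous.cpow h1 continuous_const fun θ => hz θ
  rw [per, Y124.ellI, Y124.ellI]
  congr 1
  rw [← intervalIntegral.integral_sub (hci _) (hci _), ← intervalIntegral.integral_const_mul,
    ← intervalIntegral.integral_const_mul, ← intervalIntegral.integral_add ((hci _).const_mul _)
    (((hci _).sub (hci _)).const_mul _)]
  refine intervalIntegral.integral_congr fun θ _ => ?_
  simp only [pow_one]
  set z := 1 - m * (Real.sin θ : ℂ) ^ 2 with hzz
  have hz0 : z ≠ 0 := Complex.slitPlane_ne_zero (hz θ)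
  have h2 : z ^ (1 / 2 : ℂ) = z ^ (-(1 / 2) : ℂ) * z := by
    have h3 := Complex.cpow_add (-(1 / 2) : ℂ) 1 hz0
    rw [Complex.cpow_one] at h3
    rw [← h3]
    congr 1
    norm_num
  rw [h2, hqp]
  have h4 : m * v ^ 2 * (Real.sin θ : ℂ) ^ 2 = v ^ 2 * (1 - z) := by
    rw [hzz]
    ring
  rw [h4]
  ring

/-- three of the entries of the period matrix -/
theorem periods_eq (e : Fin 3 → ℂ) (v : ℂ) (h01 : e 0 ≠ e 1) (hs : e 0 + e 1 + e 2 = 0) (hv : v ^ 2 = e 1 - e 0)
    (hD : (e 2 - e 0) / (e 1 - e 0) ∈ Y124.Dom) (i : Fin 3) :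
    Y124.pf ((e 2 - e 0) / (e 1 - e 0)) v i = ![periodMatrix e v 0 0, periodMatrix e v 1 0, periodMatrix e v 0 1] i := by
  have hne : e 1 - e 0 ≠ 0 := sub_ne_zero.2 (Ne.symm h01)
  have hv0 : v ≠ 0 := by
    intro h0
    rw [h0] at hv
    exact hne (by rw [← hv]; ring)
  have hI2 : (-Complex.I * v) ^ 2 = -v ^ 2 := by
    rw [mul_pow, neg_sq, Complex.I_sq]
    ring
  have hl2 : (e 2 - e 1) / (-Complex.I * v) ^ 2 = 1 - (e 2 - e 0) / (e 1 - e 0) := by
    rw [hI2, hv]
    field_simp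
    ring
  fin_cases i
  · change 4 / v * Y124.ellI (-(1 / 2)) ((e 2 - e 0) / (e 1 - e 0)) = per (e 0) (e 2) v 0
    rw [per_zero, hv]
  · change 4 * Complex.I / v * Y124.ellI (-(1 / 2)) (1 - (e 2 - e 0) / (e 1 - e 0)) = per (e 1) (e 2) (-Complex.I * v) 0
    rw [per_zero, hl2]
    congr 1
    field_simp
    rw [Complex.I_sq]
  · change 4 / v * (-(v ^ 2 * (1 + (e 2 - e 0) / (e 1 - e 0)) / 3) * Y124.ellI (-(1 / 2)) ((e 2 - e 0) / (e 1 - e 0)) +
      v ^ 2 * (Y124.ellI (-(1 / 2)) ((e 2 - e 0) / (e 1 - e 0)) - Y124.ellI (1 / 2) ((e 2 - e 0) / (e 1 - e 0)))) =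
      per (e 0) (e 2) v 1
    rw [per_one _ _ _ hv0 (by rw [hv]; exact hD.2), hv]
    congr 2
    congr 1
    field_simp
    linear_combination (-1 : ℂ) * hs

/-- the monomials of bounded degree in algebraically independent numbers are linearly independent -/
theorem mono_li {q : ℕ} {w : Fin q → ℂ} (hw : AlgebraicIndependent ℚ w) (N : ℕ) :
    LinearIndependent ℚ (fun u : Fin q → Fin (N + 1) => ∏ j, w j ^ (u j : ℕ)) := by
  classical
  rw [Fintype.linearIndependent_iff]
  intro g hg u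
  set f : (Fin q → Fin (N + 1)) → (Fin q →₀ ℕ) := fun u => Finsupp.equivFunOnFinite.symm fun i => (u i : ℕ) with hf
  have hinj : Function.Injective f := by
    intro s s' hss
    funext i
    exact Fin.ext (DFunLike.congr_fun hss i)
  set P : MvPolynomial (Fin q) ℚ := ∑ u, MvPolynomial.monomial (f u) (g u) with hP
  have h1 : MvPolynomial.aeval w P = 0 := by
    rw [hP, map_sum, ← hg]
    refine Finset.sum_congr rfl fun u _ => ?_
    rw [MvPolynomial.aeval_monomial, Finsupp.prod_fintype _ _ (fun i => pow_zero _), Algebra.smul_def]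
    rfl
  have h2 : P = 0 := hw.eq_zero_of_aeval_eq_zero _ h1
  have h3 : P.coeff (f u) = g u := by
    rw [hP, MvPolynomial.coeff_sum, Finset.sum_eq_single u]
    · rw [MvPolynomial.coeff_monomial, if_pos rfl]
    · intro u' _ hne
      rw [MvPolynomial.coeff_monomial, if_neg fun h => hne (hinj h)]
    · intro h
      exact absurd (Finset.mem_univ _) h
  rw [← h3, h2, MvPolynomial.coeff_zero]

/-- a relation between numbers `x` and `w` gives a relation for the `x` with coefficients in a small space -/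
theorem rel_of_dep {k q N : ℕ} {w : Fin q → ℂ} (hw : AlgebraicIndependent ℚ w) (x : Fin k × Fin 3 → ℂ)
    (h : ¬ LinearIndependent ℚ (fun s : (Fin k × Fin 3) ⊕ Fin q → Fin (N + 1) => ∏ i, Sum.elim x w i ^ (s i : ℕ))) :
    Y124.GE.RelL (k * 3 * N) 1
      (Submodule.span ℚ (Set.range fun u : Fin q → Fin (N + 1) => ∏ j, w j ^ (u j : ℕ))) x := by
  classical
  rw [Fintype.linearIndependent_iff] at h
  push Not at h
  obtain ⟨g, hg, s0, hs0⟩ := h
  set V : Submodule ℚ ℂ := Submodule.span ℚ (Set.range fun u : Fin q → Fin (N + 1) => ∏ j, w j ^ (u j : ℕ)) with hV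
  set κ : (Fin k × Fin 3 → Fin (N + 1)) → ℂ := fun u1 => ∑ u2 : Fin q → Fin (N + 1), g (Sum.elim u1 u2) • ∏ j, w j ^ (u2 j : ℕ) with hκ
  have hκV : ∀ u1, κ u1 ∈ V := fun u1 => Submodule.sum_mem _ fun u2 _ =>
    Submodule.smul_mem _ _ (Submodule.subset_span ⟨u2, rfl⟩)
  have hs1 : Sum.elim (fun i => s0 (Sum.inl i)) (fun j => s0 (Sum.inr j)) = s0 := by
    funext i
    rcases i with i | i <;> rfl
  have hκ0 : κ (fun i => s0 (Sum.inl i)) ≠ 0 := by
    intro h0
    have h1 := (Fintype.linearIndependent_iff.1 (mono_li hw N)) (fun u2 => g (Sum.elim (fun i => s0 (Sum.inl i)) u2)) h0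
      (fun j => s0 (Sum.inr j))
    apply hs0
    rw [← hs1]
    exact h1
  set f : (Fin k × Fin 3 → Fin (N + 1)) → (Fin k × Fin 3 →₀ ℕ) := fun u => Finsupp.equivFunOnFinite.symm fun i => (u i : ℕ) with hf
  have hinj : Function.Injective f := by
    intro s s' hss
    funext i
    exact Fin.ext (DFunLike.congr_fun hss i)
  set P : MvPolynomial (Fin k × Fin 3) ℂ := ∑ u, MvPolynomial.monomial (f u) (κ u) with hP
  have hco : ∀ u, P.coeff (f u) = κ u := by
    intro u
    rw [hP, MvPolynomial.coeff_sum, Finset.sum_eq_single u]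
    · rw [MvPolynomial.coeff_monomial, if_pos rfl]
    · intro u' _ hne
      rw [MvPolynomial.coeff_monomial, if_neg fun h => hne (hinj h)]
    · intro h
      exact absurd (Finset.mem_univ _) h
  refine ⟨⊥, inferInstance, by simp, P, ?_, ?_, ?_, ?_⟩
  · intro h0
    apply hκ0
    rw [← hco, h0, MvPolynomial.coeff_zero]
  · rw [hP]
    refine (MvPolynomial.totalDegree_finsetSum _ _).trans (Finset.sup_le fun u _ => ?_)
    refine (MvPolynomial.totalDegree_monomial_le _ _).trans ?_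
    rw [Finsupp.sum_fintype _ _ (fun _ => rfl)]
    calc ∑ i, (f u) i ≤ ∑ _i : Fin k × Fin 3, N := Finset.sum_le_sum fun i _ => Nat.lt_succ_iff.1 (u i).2
      _ = _ := by
        rw [Finset.sum_const, Finset.card_univ, Fintype.card_prod, Fintype.card_fin, Fintype.card_fin, smul_eq_mul]
  · intro e
    rw [hP, MvPolynomial.coeff_sum]
    refine Submodule.sum_mem _ fun u _ => ?_
    rw [MvPolynomial.coeff_monomial]
    split_ifs
    · exact Submodule.subset_span (hκV u)
    · exact Submodule.zero_mem _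
  · have h1 : MvPolynomial.aeval x P = ∑ u, κ u * ∏ i, x i ^ (u i : ℕ) := by
      rw [hP, map_sum]
      refine Finset.sum_congr rfl fun u _ => ?_
      rw [MvPolynomial.aeval_monomial, Finsupp.prod_fintype _ _ (fun i => pow_zero _)]
      rfl
    rw [h1, ← hg, ← Equiv.sum_comp (Equiv.sumArrowEquivProdArrow (Fin k × Fin 3) (Fin q) (Fin (N + 1))).symm,
      Fintype.sum_prod_type]
    refine Finset.sum_congr rfl fun u1 _ => ?_
    rw [hκ]
    simp only [Finset.sum_mul]
    refine Finset.sum_congr rfl fun u2 _ => ?_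
    rw [Fintype.prod_sum_type]
    simp only [Equiv.sumArrowEquivProdArrow_symm_apply_inl, Equiv.sumArrowEquivProdArrow_symm_apply_inr, Sum.elim_inl, Sum.elim_inr]
    have e1 : (Equiv.sumArrowEquivProdArrow (Fin k × Fin 3) (Fin q) (Fin (N + 1))).symm (u1, u2) = Sum.elim u1 u2 := rfl
    rw [e1, smul_mul_assoc, mul_comm (∏ j, w j ^ (u2 j : ℕ))]

/-- the entries of a matrix are in the span of the entries of its products with invertible matrices -/
theorem mem_of_mul {K : IntermediateField ℚ ℂ} {W : Submodule K ℂ} (R S : (Matrix (Fin 2) (Fin 2) K)ˣ)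
    {A : Matrix (Fin 2) (Fin 2) ℂ}
    (h : ∀ i j, ((R : Matrix (Fin 2) (Fin 2) K).map (algebraMap K ℂ) * A * (S : Matrix (Fin 2) (Fin 2) K).map (algebraMap K ℂ)) i j ∈ W)
    (i j : Fin 2) : A i j ∈ W := by
  have h1 : A = ((R⁻¹ : (Matrix (Fin 2) (Fin 2) K)ˣ) : Matrix (Fin 2) (Fin 2) K).map (algebraMap K ℂ) *
      ((R : Matrix (Fin 2) (Fin 2) K).map (algebraMap K ℂ) * A * (S : Matrix (Fin 2) (Fin 2) K).map (algebraMap K ℂ)) *
      ((S⁻¹ : (Matrix (Fin 2) (Fin 2) K)ˣ) : Matrix (Fin 2) (Fin 2) K).map (algebraMap K ℂ) := by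
    have hR' : ((R⁻¹ : (Matrix (Fin 2) (Fin 2) K)ˣ) : Matrix (Fin 2) (Fin 2) K).map (algebraMap K ℂ) *
        (R : Matrix (Fin 2) (Fin 2) K).map (algebraMap K ℂ) = 1 := by
      rw [← Matrix.map_mul, Units.inv_mul]
      exact Matrix.map_one _ (map_zero _) (map_one _)
    have hS' : (S : Matrix (Fin 2) (Fin 2) K).map (algebraMap K ℂ) *
        ((S⁻¹ : (Matrix (Fin 2) (Fin 2) K)ˣ) : Matrix (Fin 2) (Fin 2) K).map (algebraMap K ℂ) = 1 := by
      rw [← Matrix.map_mul, Units.mul_inv]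
      exact Matrix.map_one _ (map_zero _) (map_one _)
    calc A = (((R⁻¹ : (Matrix (Fin 2) (Fin 2) K)ˣ) : Matrix (Fin 2) (Fin 2) K).map (algebraMap K ℂ) *
          (R : Matrix (Fin 2) (Fin 2) K).map (algebraMap K ℂ)) * A * ((S : Matrix (Fin 2) (Fin 2) K).map (algebraMap K ℂ) *
          ((S⁻¹ : (Matrix (Fin 2) (Fin 2) K)ˣ) : Matrix (Fin 2) (Fin 2) K).map (algebraMap K ℂ)) := by rw [hR', hS', one_mul, mul_one]
      _ = _ := by simp only [Matrix.mul_assoc]
  rw [h1, Matrix.mul_apply]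
  refine Submodule.sum_mem _ fun m _ => ?_
  rw [Matrix.mul_apply, Finset.sum_mul]
  refine Submodule.sum_mem _ fun m' _ => ?_
  set X := (R : Matrix (Fin 2) (Fin 2) K).map (algebraMap K ℂ) * A * (S : Matrix (Fin 2) (Fin 2) K).map (algebraMap K ℂ) with hX
  have h2 : ((R⁻¹ : (Matrix (Fin 2) (Fin 2) K)ˣ) : Matrix (Fin 2) (Fin 2) K).map (algebraMap K ℂ) i m' * X m' m *
      ((S⁻¹ : (Matrix (Fin 2) (Fin 2) K)ˣ) : Matrix (Fin 2) (Fin 2) K).map (algebraMap K ℂ) m j =
      (((R⁻¹ : (Matrix (Fin 2) (Fin 2) K)ˣ) : Matrix (Fin 2) (Fin 2) K) i m' *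
        ((S⁻¹ : (Matrix (Fin 2) (Fin 2) K)ˣ) : Matrix (Fin 2) (Fin 2) K) m j) • X m' m := by
    rw [Algebra.smul_def, map_mul]
    simp only [Matrix.map_apply]
    ring
  rw [h2]
  exact Submodule.smul_mem _ _ (h _ _)

/-- the curve of a period matrix -/
theorem exists_mc (a b : Polynomial ℚ) (t : ℕ) {A : Matrix (Fin 2) (Fin 2) ℂ}
    (h : IsPeriodMatrix ((a.eval (t : ℚ) : ℚ) : ℂ) ((b.eval (t : ℚ) : ℚ) : ℂ) A) :
    ∃ x : Y124.MC, x.1 = (t : ℂ) ∧ Y124.Cv (Y124.GE.cp a) (Y124.GE.cp b) x ∧ Y124.lam x ∈ Y124.Dom ∧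
      ∀ i, Y124.pf (Y124.lam x) x.2.2 i = ![A 0 0, A 1 0, A 0 1] i := by
  obtain ⟨e, v, h1, h2, h3, h4, rfl⟩ := h
  have k1 : ∀ p : Polynomial ℚ, (Y124.GE.cp p).eval (t : ℂ) = ((p.eval (t : ℚ) : ℚ) : ℂ) := by
    intro p
    rw [Y124.GE.cp, Polynomial.eval_map, Polynomial.eval₂_at_natCast]
    rfl
  have hC : Y124.Cv (Y124.GE.cp a) (Y124.GE.cp b) ((t : ℂ), e, v) := by
    refine ⟨fun X => ?_, h2⟩
    show X ^ 3 + (Y124.GE.cp a).eval (t : ℂ) * X + (Y124.GE.cp b).eval (t : ℂ) = _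
    rw [k1, k1]
    exact h1 X
  have h01 : e 0 ≠ e 1 := by
    intro h0
    rw [h0, sub_self, div_zero] at h3
    exact Complex.slitPlane_ne_zero h3 rfl
  refine ⟨((t : ℂ), e, v), rfl, hC, ⟨h3, h4⟩, fun i => ?_⟩
  exact periods_eq e v h01 (Y124.Cv_sym hC).1 h2 ⟨h3, h4⟩ i

/-- period matrices exist for large `t` -/
theorem exists_pm (a b : Polynomial ℚ) (hb : b ≠ 0) (hab : ∀ c : ℚ, a ^ 3 ≠ Polynomial.C c * b ^ 2) :
    ∃ R₀ : ℕ, ∀ t : ℕ, R₀ ≤ t → ∃ A, IsPeriodMatrix ((a.eval (t : ℚ) : ℚ) : ℂ) ((b.eval (t : ℚ) : ℚ) : ℂ) A := by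
  obtain ⟨R₀, x, hx, -⟩ := Y124.TD.td_main a b hb hab
  refine ⟨R₀, fun t ht => ?_⟩
  obtain ⟨h1, h2, h3⟩ := hx t ht
  refine ⟨_, (x t).2.1, (x t).2.2, fun X => ?_, h2.2, h3.1, h3.2, rfl⟩
  have k1 : ∀ p : Polynomial ℚ, (Y124.GE.cp p).eval (x t).1 = ((p.eval (t : ℚ) : ℚ) : ℂ) := by
    intro p
    rw [h1, Y124.GE.cp, Polynomial.eval_map, Polynomial.eval₂_at_natCast]
    rfl
  rw [← k1, ← k1]
  exact h2.1 X

/-- the number of tuples with a small coordinate -/
theorem card_small (k R : ℕ) (T : ℕ) (hT : 1 ≤ T) (X : Finset (Fin k → ℕ))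
    (hX : ∀ t ∈ X, (∀ j, 1 ≤ t j ∧ t j ≤ T) ∧ ∃ j, t j < R) : (X.card : ℝ) ≤ k * R * (T : ℝ) ^ ((k : ℝ) - 1) := by
  classical
  rcases Nat.eq_zero_or_pos k with hk | hk
  · have h0 : X = ∅ := by
      rw [Finset.eq_empty_iff_forall_notMem]
      intro t ht
      obtain ⟨-, j, -⟩ := hX t ht
      rw [hk] at j
      exact j.elim0
    rw [h0, Finset.card_empty, hk]
    simp
  · set Y : Fin k → Finset (Fin k → ℕ) := fun j => Fintype.piFinset fun i => if i = j then Finset.range R else Finset.Icc 1 T with hY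
    have hsub : X ⊆ Finset.univ.biUnion Y := by
      intro t ht
      obtain ⟨h1, j, hj⟩ := hX t ht
      rw [Finset.mem_biUnion]
      refine ⟨j, Finset.mem_univ _, ?_⟩
      rw [hY, Fintype.mem_piFinset]
      intro i
      by_cases hij : i = j
      · rw [if_pos hij, Finset.mem_range, hij]
        exact hj
      · rw [if_neg hij, Finset.mem_Icc]
        exact h1 i
    have hYc : ∀ j, (Y j).card = R * T ^ (k - 1) := by
      intro j
      rw [hY, Fintype.card_piFinset, ← Finset.mul_prod_erase _ _ (Finset.mem_univ j), if_pos rfl, Finset.card_range]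
      congr 1
      rw [Finset.prod_congr rfl (g := fun _ => T)]
      · rw [Finset.prod_const, Finset.card_erase_of_mem (Finset.mem_univ _), Finset.card_univ, Fintype.card_fin]
      · intro i hi
        rw [if_neg (Finset.ne_of_mem_erase hi), Nat.card_Icc]
        omega
    have h1 : X.card ≤ k * (R * T ^ (k - 1)) := by
      refine (Finset.card_le_card hsub).trans (Finset.card_biUnion_le.trans ?_)
      rw [Finset.sum_congr rfl fun j _ => hYc j, Finset.sum_const, Finset.card_univ, Fintype.card_fin, smul_eq_mul]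
    have h2 : ((T : ℝ)) ^ ((k : ℝ) - 1) = (T : ℝ) ^ (k - 1) := by
      rw [← Real.rpow_natCast, Nat.cast_sub hk, Nat.cast_one]
    rw [h2]
    calc (X.card : ℝ) ≤ ((k * (R * T ^ (k - 1)) : ℕ) : ℝ) := by exact_mod_cast h1
      _ = _ := by push_cast; ring

/-- Let `k` families `y² = x³ + a_j(t) x + b_j(t)` be given by polynomials with rational coefficients such that `b_j ≠ 0` and
`a_j³` is not a constant multiple of `b_j²` (the curves have nonconstant `j`-invariants). For all `q`, `δ`, `D` there are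
`c > 0` and `M` such that for all algebraically independent complex numbers `w_1, …, w_q` and all `T ≥ 1`, for all but at most
`M T ^ (k - c)` of the `k`-tuples `t` of integers in `[1, T]`: for all number fields `K` of degree at most `D` and all bases of
the homology and of the de Rham cohomology over `K`, some `3 k + q` of the `4 k` periods of the curves
`y² = x³ + a_j(t_j) x + b_j(t_j)` and of the numbers `w_1, …, w_q` satisfy no nontrivial polynomial relation of degree at most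
`δ` in each unknown with coefficients in `K`. -/
theorem result (k : ℕ) (a b : Fin k → Polynomial ℚ) (hb : ∀ j, b j ≠ 0)
    (hab : ∀ j, ∀ c : ℚ, a j ^ 3 ≠ Polynomial.C c * b j ^ 2) (q δ D : ℕ) :
    ∃ c M : ℝ, 0 < c ∧ ∀ w : Fin q → ℂ, AlgebraicIndependent ℚ w → ∀ T : ℕ, 1 ≤ T →
      (({t : Fin k → ℕ | (∀ j, 1 ≤ t j ∧ t j ≤ T) ∧ ¬ Generic a b δ D w t}.ncard : ℕ) : ℝ) ≤ M * (T : ℝ) ^ ((k : ℝ) - c) := by
  classical
  choose R₀ hR₀ using fun j => exists_pm (a j) (b j) (hb j) (hab j)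
  obtain ⟨c₁, hc₁⟩ := Y124.TD.gr_max D 0 δ (k * (2 * 2) + q)
  obtain ⟨N, hN⟩ : ∃ N : ℕ, 0 < 3 * k + q → ∀ (K : IntermediateField ℚ ℂ) (W : Submodule K ℂ), (1 : ℂ) ∈ W →
      Y124.TD.GR c₁ (3 * k + q - 1) W → ∀ (ι : Type) [Fintype ι], Fintype.card ι = 3 * k + q → ∀ (x : ι → ℂ) (p : ℂ), p ≠ 0 →
        p ∈ W ^ 1 → (∀ i, p * x i ∈ W ^ 1) → ¬ LinearIndependent ℚ (fun s : ι → Fin (N + 1) => ∏ i, x i ^ (s i : ℕ)) := by
    by_cases h0 : 0 < 3 * k + q
    · obtain ⟨N, hN⟩ := Y124.TD.gr_li' c₁ (3 * k + q - 1) (3 * k + q) 1 (by omega)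
      exact ⟨N, fun _ => hN⟩
    · exact ⟨0, fun h => absurd h h0⟩
  obtain ⟨c, M, hc, hc1, hM, H⟩ := Y124.GE.fin_main k a b hb hab (k * 3 * N) ((N + 1) ^ q) 1
  set R : ℕ := ∑ j, R₀ j with hR
  refine ⟨c, M + k * R, hc, fun w hw T hT => ?_⟩
  set B : Set (Fin k → ℕ) := {t : Fin k → ℕ | (∀ j, 1 ≤ t j ∧ t j ≤ T) ∧ ¬ Generic a b δ D w t} with hB
  have hfin : B.Finite := by
    refine (Set.finite_Iic (fun _ : Fin k => T)).subset ?_
    intro t ht j
    exact (ht.1 j).2
  rw [Set.ncard_eq_toFinset_card B hfin]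
  set B1 : Finset (Fin k → ℕ) := hfin.toFinset.filter fun t => ∃ j, t j < R with hB1
  set B2 : Finset (Fin k → ℕ) := hfin.toFinset.filter fun t => ¬ ∃ j, t j < R with hB2
  have hcard : hfin.toFinset.card = B1.card + B2.card := (Finset.card_filter_add_card_filter_not _).symm
  have hT1 : (1 : ℝ) ≤ T := by exact_mod_cast hT
  have h1 : (B1.card : ℝ) ≤ k * R * (T : ℝ) ^ ((k : ℝ) - c) := by
    refine (card_small k R T hT B1 fun t ht => ?_).trans ?_
    · rw [hB1, Finset.mem_filter, hfin.mem_toFinset] at ht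
      exact ⟨ht.1.1, ht.2⟩
    · refine mul_le_mul_of_nonneg_left ?_ (by positivity)
      exact Real.rpow_le_rpow_of_exponent_le hT1 (by linarith)
  have hVfin : finrank ℚ (Submodule.span ℚ (Set.range fun u : Fin q → Fin (N + 1) => ∏ j, w j ^ (u j : ℕ))) ≤ (N + 1) ^ q := by
    refine (finrank_range_le_card _).trans ?_
    rw [Fintype.card_fun, Fintype.card_fin, Fintype.card_fin]
  have h2 : (B2.card : ℝ) ≤ M * (T : ℝ) ^ ((k : ℝ) - c) := by
    haveI : Module.Finite ℚ (Submodule.span ℚ (Set.range fun u : Fin q → Fin (N + 1) => ∏ j, w j ^ (u j : ℕ))) :=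
      Module.Finite.span_of_finite ℚ (Set.finite_range _)
    refine H _ hVfin T hT B2 fun t ht => ?_
    rw [hB2, Finset.mem_filter, hfin.mem_toFinset] at ht
    obtain ⟨⟨ht1, ht2⟩, ht3⟩ := ht
    refine ⟨ht1, ?_⟩
    push Not at ht3
    have hex : ∀ j, ∃ A, IsPeriodMatrix (((a j).eval (t j : ℚ) : ℚ) : ℂ) (((b j).eval (t j : ℚ) : ℚ) : ℂ) A := fun j =>
      hR₀ j (t j) ((Finset.single_le_sum (f := R₀) (fun i _ => Nat.zero_le _) (Finset.mem_univ j)).trans (ht3 j))
    unfold Generic at ht2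
    rw [not_and_or] at ht2
    rcases ht2 with ht2 | ht2
    · exact absurd hex ht2
    push Not at ht2
    obtain ⟨A, hA, K, hKf, hKD, RR, SS, hno⟩ := ht2
    choose x hx1 hx2 hx3 hx4 using fun j => exists_mc (a j) (b j) (t j) (hA j)
    refine ⟨x, fun j => ⟨hx1 j, hx2 j, hx3 j⟩, ?_⟩
    refine rel_of_dep hw _ ?_
    set z : (Fin k × Fin 2 × Fin 2) ⊕ Fin q → ℂ := Sum.elim (fun x => ((RR x.1 : Matrix (Fin 2) (Fin 2) K).map (algebraMap K ℂ) *
      A x.1 * (SS x.1 : Matrix (Fin 2) (Fin 2) K).map (algebraMap K ℂ)) x.2.1 x.2.2) w with hz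
    obtain ⟨e, σ, hσ, hek, hLI, hmax⟩ := Y124.TD.exists_max K δ z
    have hlt : e < 3 * k + q := by
      by_contra hge
      push Not at hge
      apply hno
      refine ⟨fun i => σ (Fin.castLE hge i), hσ.comp (Fin.castLE_injective hge), fun Q hQ h0 => ?_⟩
      exact (hLI.comp (Fin.castLE hge) (Fin.castLE_injective hge)).mv Q hQ h0
    have hcardz : Fintype.card ((Fin k × Fin 2 × Fin 2) ⊕ Fin q) = k * (2 * 2) + q := by
      rw [Fintype.card_sum, Fintype.card_prod, Fintype.card_prod, Fintype.card_fin, Fintype.card_fin, Fintype.card_fin]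
    have h10 : (1 : ℂ) ∈ (1 : Submodule K ℂ) := Submodule.one_le.1 le_rfl
    obtain ⟨W, hW, hzW, hG⟩ := hc₁ K 1 h10 (Y124.TD.gr_one hKD) _ hcardz z e σ hek hLI hmax
    have hG' : Y124.TD.GR c₁ (3 * k + q - 1) W := hG.mono_exp (by omega)
    have hAW : ∀ j i i', A j i i' ∈ W := fun j => mem_of_mul (RR j) (SS j) fun i i' => hzW (Sum.inl (j, i, i'))
    refine hN (by omega) K W (hW h10) hG' ((Fin k × Fin 3) ⊕ Fin q) (by
      rw [Fintype.card_sum, Fintype.card_prod, Fintype.card_fin, Fintype.card_fin, Fintype.card_fin, mul_comm]) _ 1 one_ne_zero ?_ ?_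
    · rw [pow_one]
      exact hW h10
    · intro i
      rw [one_mul, pow_one]
      rcases i with ⟨j, i⟩ | i
      · show Y124.pf (Y124.lam (x j)) (x j).2.2 i ∈ W
        rw [hx4]
        fin_cases i
        · exact hAW j 0 0
        · exact hAW j 1 0
        · exact hAW j 0 1
      · exact hzW (Sum.inr i)
  rw [hcard]
  push_cast
  calc (B1.card : ℝ) + B2.card ≤ k * R * (T : ℝ) ^ ((k : ℝ) - c) + M * (T : ℝ) ^ ((k : ℝ) - c) := add_le_add h1 h2
    _ = _ := by ring

end Pool.Agent.Results.MP_57341d_ag.AllEllipticFamilies
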