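import Pool.Agent.X265.HypR
import Pool.Agent.Results.MP_cbf1af_ag.AllTuplesDegenerating

/-!
# Periods of hypergeometric motives of Calabi–Yau type: the transcendence degree for ALL tuples of fibres in short windows

Let `β_1, …, β_m` be rational numbers which are not integers, `n = 2m` and `θ = z d/dz`. The hypergeometric operator
`θ^n - z ∏_j (θ - β_j) (θ + β_j)` has maximally unipotent monodromy at `z = 0` and its Galois group is the symplectic group
`Sp_(2m)`, of dimension `m (2m + 1)`. For `m = 1` its solutions are periods of families of elliptic curves, for `m = 2` and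
`β = (1/5, 2/5)` it is contiguous to the operator of the mirror quintic threefolds. The period matrix of the fibre of the family of
motives at `z = 1/t`, `t` an integer, is `Y(t) Ω`, where `Y(t)` is the matrix of the `(θ^i f_j)(1/t)`, `f_j` the Frobenius basis,
and `Ω` is an invertible matrix of constants (the periods of the limit motive). The period conjecture predicts for `k` general
fibres the transcendence degree `k m (2m + 1) + 1`, the dimension of the Mumford-Tate group, and never a bigger one.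

We prove, for ALL `k`-tuples of integers `t_1, …, t_k` in a short interval `[N, N + N^c]` at distance at least `G` from each other
(`G` depends only on `β`), that the transcendence degree, in degree at most `δ`, of the entries of the matrices
`R_l Y(t_l) Ω S_l` is at least `(k - 1) m (2m + 1) - 1`, uniformly in all invertible complex matrices `Ω`, in the number fields of
degree at most `D` and in the bases `R_l, S_l` over them; and that it is at least `k m (2m + 1) - (s + 1)` if the
entries of `Ω` are algebraic over a field generated by `s` numbers. (For the mirror quintic these are `π` and `ζ(3)`, so that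
the bound is `10 k - 3`.) With the numbers `log t_l` (the periods of the Kummer motives) the bounds are
`(k - 1) (m (2m + 1) + 1)` and `k (m (2m + 1) + 1) - (s + 1)`.
-/

set_option autoImplicit false

open PowerSeries Module

namespace Pool.Agent.Results.MP_57341d_ag.HypergeometricAllTuples

/-- the power series `k + ε` in the variable `ε` -/
noncomputable def shift (k : ℕ) : PowerSeries ℚ := C (k : ℚ) + X

/-- `a_k(ε) = ∏_{l < k} ∏_j ((l + ε)^2 - β_j^2) / (l + 1 + ε)^(2m)`. The series `∑_k a_k(ε) z^(k + ε)` solves the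
equation `(θ^n - z ∏_j (θ^2 - β_j^2)) f = ε^n z^ε`, hence its coefficients `f_j` at `ε^j` with `j < n = 2m` are
solutions of the homogeneous equation. -/
noncomputable def frob {m : ℕ} (β : Fin m → ℚ) (k : ℕ) : PowerSeries ℚ :=
  ∏ l ∈ Finset.range k, ((∏ j, (shift l ^ 2 - C (β j ^ 2))) * ((shift (l + 1))⁻¹) ^ (2 * m))

/-- The matrix with the entries `(θ^i f_j)(1 / t)`, where `f_j(z)` is the coefficient of `ε^j` in the series
`∑_k a_k(ε) z^(k + ε)`, `z^ε = ∑_l (log z)^l ε^l / l!`. -/
noncomputable def Y {m : ℕ} (β : Fin m → ℚ) (t : ℕ) : Matrix (Fin (2 * m)) (Fin (2 * m)) ℂ :=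
  Matrix.of fun i j => ∑ l ∈ Finset.range ((j : ℕ) + 1), ((Real.log (1 / t) ^ l / l.factorial : ℝ) : ℂ) *
    ∑' k : ℕ, ((coeff ((j : ℕ) - l) (shift k ^ (i : ℕ) * frob β k) : ℚ) : ℂ) * (1 / (t : ℂ)) ^ k

/-- Some `r` of the numbers `x_i` (with different indices) satisfy no nonzero polynomial relation of degree at most `δ` in each
unknown with coefficients in `K`. -/
def TrdegGe {ι : Type} (r δ : ℕ) (K : IntermediateField ℚ ℂ) (x : ι → ℂ) : Prop :=
  ∃ σ : Fin r → ι, Function.Injective σ ∧ ∀ P : MvPolynomial (Fin r) K, (∀ i, P.degreeOf i ≤ δ) →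
    MvPolynomial.aeval (fun i => x (σ i)) P = 0 → P = 0

/-- the family of the numbers `L_l` and of the entries of the matrices `P_l` -/
def withLogs {n k : ℕ} (L : Fin k → ℂ) (P : Fin k → Matrix (Fin n) (Fin n) ℂ) (v : Fin k × Option (Fin n × Fin n)) : ℂ :=
  v.2.elim (L v.1) fun p => P v.1 p.1 p.2

/-- Conclusion of the theorem: for all `k`-tuples of integers `t_l` in `[N, N + N^c]` at distance at least `G`, all number fields
`K` of degree at most `D` and all changes of bases `R_l, S_l` over `K`, the transcendence degree in degree at most `δ` of the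
entries of the period matrices `R_l Y(t_l) Ω S_l` is at least `r`, and that of these entries and the numbers `log t_l` is at
least `r'`. -/
def Bound {m : ℕ} (β : Fin m → ℚ) (Ω : Matrix (Fin (2 * m)) (Fin (2 * m)) ℂ) (G k δ D r r' : ℕ) (c : ℝ) (N : ℕ) : Prop :=
  ∀ t : Fin k → ℕ, (∀ l, N ≤ t l ∧ (t l : ℝ) ≤ N + (N : ℝ) ^ c) → (∀ l l', l ≠ l' → (G : ℤ) ≤ |(t l : ℤ) - t l'|) →
    ∀ (K : IntermediateField ℚ ℂ) [FiniteDimensional ℚ K], finrank ℚ K ≤ D →
      ∀ (R S : Fin k → (Matrix (Fin (2 * m)) (Fin (2 * m)) K)ˣ) (P : Fin k → Matrix (Fin (2 * m)) (Fin (2 * m)) ℂ),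
        (∀ l, P l = (R l : Matrix (Fin (2 * m)) (Fin (2 * m)) K).map (algebraMap K ℂ) * (Y β (t l) * Ω) *
          (S l : Matrix (Fin (2 * m)) (Fin (2 * m)) K).map (algebraMap K ℂ)) →
        TrdegGe r δ K (fun v : Fin k × Fin (2 * m) × Fin (2 * m) => P v.1 v.2.1 v.2.2) ∧
        TrdegGe r' δ K (withLogs (fun l => ((Real.log (t l) : ℝ) : ℂ)) P)

theorem shift_eq (k : ℕ) : shift k = Pool.Agent.Y119.HY.kx k := rfl

theorem frob_eq {m : ℕ} (β : Fin m → ℚ) (k : ℕ) : frob β k = Pool.Agent.Y119.HY.aq (2 * m) (Pool.Agent.Y119.HY.QB β) k := by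
  unfold frob Pool.Agent.Y119.HY.aq
  refine Finset.prod_congr rfl fun l _ => ?_
  congr 1
  unfold Pool.Agent.Y119.HY.QB
  rw [map_prod]
  refine Finset.prod_congr rfl fun j _ => ?_
  simp only [map_sub, map_pow, Polynomial.aeval_X, Polynomial.aeval_C]
  rfl

theorem Y_eq {m : ℕ} (β : Fin m → ℚ) (t : ℕ) : Y β t = Pool.Agent.Y119.HZ.Yt (2 * m) (Pool.Agent.Y119.HY.QB β) t := by
  ext i j
  unfold Y Pool.Agent.Y119.HZ.Yt
  rw [Matrix.of_apply, Matrix.mul_apply]
  have hE : ∀ c : Fin (2 * m), Pool.Agent.Y119.HY.E (Pool.Agent.Y119.HY.cm (Pool.Agent.Y119.HY.Am (2 * m)))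
      (-((Real.log t : ℝ) : ℂ)) c j = ∑ l ∈ Finset.range (2 * m),
        if (j : ℕ) = c + l then ((Real.log (1 / t) ^ l / l.factorial : ℝ) : ℂ) else 0 := by
    intro c
    unfold Pool.Agent.Y119.HY.E
    rw [Matrix.sum_apply]
    refine Finset.sum_congr rfl fun l _ => ?_
    rw [Matrix.smul_apply, ← Pool.Agent.Y119.HY.cm_pow, Pool.Agent.Y119.HY.cm_apply, Pool.Agent.Y119.HY.Am_pow, smul_eq_mul,
      one_div, Real.log_inv]
    split_ifs
    · push_cast
      ring
    · simp
  simp only [hE, Finset.mul_sum]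
  rw [Finset.sum_comm]
  have hsub : Finset.range ((j : ℕ) + 1) ⊆ Finset.range (2 * m) := by
    intro l hl
    rw [Finset.mem_range] at hl ⊢
    have := j.2
    omega
  refine Finset.sum_subset_zero_on_sdiff hsub (fun l hl => ?_) fun l hl => ?_
  · rw [Finset.mem_sdiff, Finset.mem_range, Finset.mem_range] at hl
    refine Finset.sum_eq_zero fun c _ => ?_
    rw [if_neg (by omega), mul_zero]
  · rw [Finset.mem_range] at hl
    have hj := j.2
    rw [Finset.sum_eq_single (⟨(j : ℕ) - l, by omega⟩ : Fin (2 * m))]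
    · rw [if_pos (by simp only; omega), mul_comm]
      congr 1
      unfold Pool.Agent.Y119.HY.Hf Pool.Agent.Y119.HY.ps
      rw [Matrix.of_apply]
      refine tsum_congr fun k => ?_
      show _ = ((Pool.Agent.Y119.HY.hq (2 * m) (Pool.Agent.Y119.HY.QB β) k i ((j : ℕ) - l) : ℚ) : ℂ) *
        (((1 / (t : ℝ) : ℝ)) : ℂ) ^ k
      rw [frob_eq, shift_eq]
      unfold Pool.Agent.Y119.HY.hq
      push_cast
      rfl
    · intro c _ hc
      rw [if_neg, mul_zero]
      intro h
      apply hc
      apply Fin.ext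
      simp only
      omega
    · intro h
      exact absurd (Finset.mem_univ _) h

/-- the transposed residue -/
def Nt (n : ℕ) : Matrix (Fin n) (Fin n) ℤ := Matrix.of fun i j => if (i : ℕ) = j + 1 then 1 else 0

lemma Nt_map (n : ℕ) : (Nt n).map (Int.castRingHom ℚ) = (Pool.Agent.Y119.HY.Am n).transpose := by
  ext i j
  unfold Nt Pool.Agent.Y119.HY.Am
  rw [Matrix.map_apply, Matrix.of_apply, Matrix.transpose_apply, Matrix.of_apply]
  split_ifs <;> simp

lemma Nt_pow (n : ℕ) : (Nt n) ^ n = 0 := by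
  have h1 := map_pow (RingHom.mapMatrix (Int.castRingHom ℚ)) (Nt n) n
  have h2 : (RingHom.mapMatrix (Int.castRingHom ℚ)) (Nt n) = (Pool.Agent.Y119.HY.Am n).transpose := Nt_map n
  rw [h2, ← Matrix.transpose_pow, Pool.Agent.Y119.HY.Am_nil, Matrix.transpose_zero] at h1
  have h3 : Function.Injective (Int.castRingHom ℚ) := Int.cast_injective
  ext i j
  have h4 := congrFun (congrFun h1 i) j
  apply h3
  rw [Matrix.zero_apply, map_zero]
  exact h4

lemma Nt_mapC (n : ℕ) : (Nt n).map (Int.castRingHom ℂ) = (Pool.Agent.Y119.HY.cm (Pool.Agent.Y119.HY.Am n)).transpose := by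
  ext i j
  unfold Nt Pool.Agent.Y119.HY.Am
  rw [Matrix.map_apply, Matrix.of_apply, Matrix.transpose_apply, Pool.Agent.Y119.HY.cm_apply, Matrix.of_apply]
  split_ifs <;> simp

/-- the period matrix -/
lemma periods_eq {n : ℕ} {Q : Polynomial ℚ} (Ω : Matrix (Fin n) (Fin n) ℂ) (t : ℕ) :
    Pool.Agent.Results.MP_cbf1af_ag.AllTuplesDegenerating.periods Ω.transpose (Nt n) (Pool.Agent.Y119.HZ.Hp n Q).transpose t =
      (Pool.Agent.Y119.HZ.Yt n Q t * Ω).transpose := by
  unfold Pool.Agent.Results.MP_cbf1af_ag.AllTuplesDegenerating.periods Pool.Agent.Y119.HZ.Yt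
  rw [Matrix.transpose_mul, Matrix.transpose_mul, Matrix.mul_assoc]
  congr 2
  · have h0 : (-((Real.log t : ℝ) : ℂ) • (Nt n).map (Int.castRingHom ℂ)) ^ n = 0 := by
      rw [Nt_mapC, smul_pow, ← Matrix.transpose_pow, ← Pool.Agent.Y119.HY.cm_pow, Pool.Agent.Y119.HY.Am_nil,
        Pool.Agent.Y119.HY.cm_zero, Matrix.transpose_zero, smul_zero]
    rw [IsNilpotent.exp_eq_sum h0, Nt_mapC]
    unfold Pool.Agent.Y119.HY.E
    rw [Matrix.transpose_sum]
    refine Finset.sum_congr rfl fun i _ => ?_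
    rw [smul_pow, Matrix.transpose_smul, Matrix.transpose_pow]
    ext a b
    rw [Matrix.smul_apply, Matrix.smul_apply, Matrix.smul_apply, smul_eq_mul, smul_eq_mul, Rat.smul_def]
    push_cast
    ring
  · ext i j
    unfold Pool.Agent.Results.MP_cbf1af_ag.AllTuplesDegenerating.val
    rw [Matrix.of_apply, Matrix.transpose_apply, Matrix.transpose_apply]
    exact Pool.Agent.Y119.HZ.ev_Hp (Q := Q) (t : ℝ) j i

lemma gc {f : ℚ⟦X⟧} (h : Pool.Agent.Y113.SDc f) : Pool.Agent.Results.MP_cbf1af_ag.AllTuplesDegenerating.GCond f := by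
  obtain ⟨a, h1, h2⟩ := h
  exact ⟨2 ^ a, h1, h2⟩

/-- the rank -/
lemma rank_ge {n : ℕ} {Q : Polynomial ℚ} (hQ : Pool.Agent.Y119.HY.QD n Q) {d : ℕ} (hd : 2 * d = n * (n + 1)) :
    d ≤ Pool.Agent.Results.MP_cbf1af_ag.AllTuplesDegenerating.rank (Pool.Agent.Y119.HZ.Hp n Q).transpose := by
  obtain ⟨T, hT⟩ := Pool.Agent.X265.HypR.exists_T hQ d hd
  refine le_csSup ⟨Fintype.card (Fin n × Fin n), ?_⟩ ⟨fun i => ((T i).2, (T i).1), hT⟩
  rintro d' ⟨T', hT'⟩
  have h1 : Function.Injective T' := by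
    intro i j hij
    exact hT'.injective (by
      show (Pool.Agent.Y119.HZ.Hp n Q).transpose (T' i).1 (T' i).2 = (Pool.Agent.Y119.HZ.Hp n Q).transpose (T' j).1 (T' j).2
      rw [hij])
  simpa using Fintype.card_le_of_injective T' h1

/-- fewer numbers -/
lemma TrdegGe.mono {ι : Type} {r r' δ : ℕ} {K : IntermediateField ℚ ℂ} {x : ι → ℂ} (h : TrdegGe r δ K x) (hr : r' ≤ r) :
    TrdegGe r' δ K x := by
  classical
  obtain ⟨σ, hσ, hP⟩ := h
  refine ⟨fun i => σ (Fin.castLE hr i), fun i j hij => Fin.castLE_injective hr (hσ hij), fun P hdeg h0 => ?_⟩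
  have h1 : MvPolynomial.rename (Fin.castLE hr) P = 0 := by
    apply hP
    · intro i
      by_cases hi : i ∈ Set.range (Fin.castLE hr)
      · obtain ⟨j, rfl⟩ := hi
        rw [MvPolynomial.degreeOf_rename_of_injective (Fin.castLE_injective hr)]
        exact hdeg j
      · rw [MvPolynomial.degreeOf_le_iff]
        intro m hm
        rw [MvPolynomial.mem_support_iff] at hm
        obtain ⟨u, hu, hu'⟩ := MvPolynomial.coeff_rename_ne_zero _ _ _ hm
        rw [← hu, Finsupp.mapDomain_of_notMem_range _ _ hi]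
        exact Nat.zero_le _
    · rw [MvPolynomial.aeval_rename]
      exact h0
  exact MvPolynomial.rename_injective _ (Fin.castLE_injective hr) (by rw [h1, map_zero])

/-- without the logarithms -/
lemma TrdegGe.drop {n k r δ : ℕ} {K : IntermediateField ℚ ℂ} {L : Fin k → ℂ} {P : Fin k → Matrix (Fin n) (Fin n) ℂ}
    (h : TrdegGe (r + k) δ K (withLogs L P)) :
    TrdegGe r δ K (fun v : Fin k × Fin n × Fin n => P v.1 v.2.1 v.2.2) := by
  classical
  obtain ⟨σ, hσ, hP⟩ := h
  -- the indices of the entries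
  set A : Finset (Fin (r + k)) := Finset.univ.filter fun i => (σ i).2.isSome with hA
  have hAc : Aᶜ.card ≤ k := by
    have h1 : Aᶜ.card ≤ (Finset.univ : Finset (Fin k)).card := by
      refine Finset.card_le_card_of_injOn (fun i => (σ i).1) (fun i _ => Finset.mem_coe.2 (Finset.mem_univ _)) ?_
      intro i hi j hj hij
      have hi' : (σ i).2 = none := by
        have := Finset.mem_compl.1 (Finset.mem_coe.1 hi)
        rw [hA, Finset.mem_filter, not_and] at this
        simpa using this (Finset.mem_univ _)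
      have hj' : (σ j).2 = none := by
        have := Finset.mem_compl.1 (Finset.mem_coe.1 hj)
        rw [hA, Finset.mem_filter, not_and] at this
        simpa using this (Finset.mem_univ _)
      exact hσ (Prod.ext hij (hi'.trans hj'.symm))
    simpa using h1
  have hAr : r ≤ A.card := by
    have h1 := Finset.card_add_card_compl A
    rw [Fintype.card_fin] at h1
    omega
  obtain ⟨B, hBA, hB⟩ := Finset.exists_subset_card_eq hAr
  have e : Fin r ≃ B := (Fintype.equivFinOfCardEq (by rw [Fintype.card_coe, hB])).symm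
  have hsome : ∀ i : Fin r, ∃ p, (σ (e i)).2 = some p := by
    intro i
    have h1 := hBA (e i).2
    rw [hA, Finset.mem_filter] at h1
    exact Option.isSome_iff_exists.1 h1.2
  choose p hp using hsome
  have hinj : Function.Injective fun i : Fin r => (e i : Fin (r + k)) := fun i j hij => e.injective (Subtype.ext hij)
  refine ⟨fun i => ((σ (e i)).1, p i), ?_, fun F hdeg h0 => ?_⟩
  · intro i j hij
    have h1 : (σ (e i)).1 = (σ (e j)).1 := congrArg (fun v : Fin k × Fin n × Fin n => v.1) hij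
    have h2 : p i = p j := congrArg (fun v : Fin k × Fin n × Fin n => v.2) hij
    have h3 : σ (e i) = σ (e j) := Prod.ext h1 (by rw [hp i, hp j, h2])
    exact hinj (hσ h3)
  · have h1 : MvPolynomial.rename (fun i : Fin r => (e i : Fin (r + k))) F = 0 := by
      apply hP
      · intro i
        by_cases hi : i ∈ Set.range (fun i : Fin r => (e i : Fin (r + k)))
        · obtain ⟨j, rfl⟩ := hi
          rw [MvPolynomial.degreeOf_rename_of_injective hinj]
          exact hdeg j
        · rw [MvPolynomial.degreeOf_le_iff]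
          intro m hm
          rw [MvPolynomial.mem_support_iff] at hm
          obtain ⟨u, hu, hu'⟩ := MvPolynomial.coeff_rename_ne_zero _ _ _ hm
          rw [← hu, Finsupp.mapDomain_of_notMem_range _ _ hi]
          exact Nat.zero_le _
      · rw [MvPolynomial.aeval_rename, ← h0]
        congr 2
        funext i
        show withLogs L P (σ (e i)) = _
        unfold withLogs
        rw [hp i]
        rfl
    exact MvPolynomial.rename_injective _ hinj (by rw [h1, map_zero])

/-- the transposed matrices -/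
lemma trdeg_tr {n k r δ : ℕ} {K : IntermediateField ℚ ℂ} {L : Fin k → ℂ} {P : Fin k → Matrix (Fin n) (Fin n) ℂ}
    (h : Pool.Agent.Results.MP_cbf1af_ag.AllTuplesDegenerating.TrdegGe r δ K L fun l => (P l).transpose) :
    TrdegGe r δ K (withLogs L P) := by
  obtain ⟨σ, hσ, hP⟩ := h
  refine ⟨fun i => ((σ i).1, (σ i).2.map Prod.swap), ?_, fun F hdeg h0 => hP F hdeg ?_⟩
  · intro i j hij
    simp only [Prod.mk.injEq] at hij
    exact hσ (Prod.ext hij.1 (Option.map_injective Prod.swap_injective hij.2))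
  · rw [← h0]
    congr 2
    funext i
    unfold withLogs
    simp only
    generalize (σ i).2 = o
    rcases o with _ | p
    · rfl
    · rfl

/-- The theorem. `G` depends only on `β`; in the first part `c` and `N₀` depend only on `β` and on `k, δ, D`. -/
theorem result {m : ℕ} (hm : 1 ≤ m) (β : Fin m → ℚ) (hβ : ∀ j, ∀ a : ℤ, β j ≠ a) :
    ∃ G : ℕ, ∀ k δ D : ℕ,
      (∃ (c : ℝ) (N₀ : ℕ), 0 < c ∧ ∀ N : ℕ, N₀ ≤ N → ∀ Ω : Matrix (Fin (2 * m)) (Fin (2 * m)) ℂ, IsUnit Ω →
        Bound β Ω G k δ D ((k - 1) * (m * (2 * m + 1)) - 1) ((k - 1) * (m * (2 * m + 1) + 1)) c N) ∧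
      ∀ Ω : Matrix (Fin (2 * m)) (Fin (2 * m)) ℂ, IsUnit Ω → ∀ (s : ℕ) (ω : Fin s → ℂ),
        (∀ i j, IsAlgebraic (Algebra.adjoin ℚ (Set.range ω)) (Ω i j)) →
        ∃ (c : ℝ) (N₀ : ℕ), 0 < c ∧ ∀ N : ℕ, N₀ ≤ N →
          Bound β Ω G k δ D (k * (m * (2 * m + 1)) - (s + 1)) (k * (m * (2 * m + 1) + 1) - (s + 1)) c N := by
  classical
  have hβ' : ∀ j, ∀ l : ℕ, (l : ℚ) + β j ≠ 0 ∧ (l : ℚ) + -β j ≠ 0 := by
    intro j l
    constructor
    · intro h
      apply hβ j (-(l : ℤ))
      push_cast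
      linear_combination h
    · intro h
      apply hβ j (l : ℤ)
      push_cast
      linear_combination -h
  have hQ := Pool.Agent.Y119.HZ.QD_QB hm hβ'
  set n := 2 * m with hn
  set Q := Pool.Agent.Y119.HY.QB β with hQd
  have hH := fun a b => Pool.Agent.Y119.HY.sdc_hps hβ' hQ a b
  have hH' : ∀ i j, Pool.Agent.Y113.SDc (Pool.Agent.Y119.HZ.Hp n Q i j) := fun i j => hH i j
  obtain ⟨D₀, b, hD₀, hb⟩ := Pool.Agent.Y119.HZ.exists_b n Q
  have hd : 2 * (m * (2 * m + 1)) = n * (n + 1) := by rw [hn]; ring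
  have hrank := rank_ge hQ hd
  obtain ⟨G, hmain⟩ := Pool.Agent.Results.MP_cbf1af_ag.AllTuplesDegenerating.result n (Pool.Agent.Y119.HZ.T1 D₀)
    (Matrix.of fun k j => Pool.Agent.Y119.HZ.A1 n D₀ b j k) (Nt n) (Pool.Agent.Y119.HZ.Hp n Q).transpose
    (Pool.Agent.Y119.HZ.Wp n Q).transpose (by
      unfold Pool.Agent.Y119.HZ.T1
      refine mul_ne_zero (by rw [Ne, Polynomial.C_eq_zero]; exact_mod_cast hD₀) ?_
      intro h
      have := congrArg (Polynomial.eval 0) h
      simp at this) (Nt_pow n) (by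
      intro i j
      have h1 := Pool.Agent.Y119.HZ.ode_int hQ hb j i
      have h2 : ∑ k, (C ((Nt n i k : ℤ) : ℚ) : ℚ⟦X⟧) * (Pool.Agent.Y119.HZ.Hp n Q).transpose k j =
          ∑ k, Pool.Agent.Y119.HZ.Hp n Q j k * C (Pool.Agent.Y119.HY.Am n k i) := by
        refine Finset.sum_congr rfl fun k _ => ?_
        have h3 := congrFun (congrFun (Nt_map n) i) k
        rw [Matrix.map_apply, Matrix.transpose_apply] at h3
        have h4 : ((Nt n i k : ℤ) : ℚ) = Pool.Agent.Y119.HY.Am n k i := h3
        rw [h4, mul_comm]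
        rfl
      have h3 : ∑ k, Pool.Agent.Y113.ps (Pool.Agent.Y119.HZ.A1 n D₀ b j k) * Pool.Agent.Y119.HZ.Hp n Q k i =
          ∑ k, (Pool.Agent.Y119.HZ.Hp n Q).transpose i k *
            Pool.Agent.Results.MP_cbf1af_ag.AllTuplesDegenerating.toQ
              ((Matrix.of fun k j => Pool.Agent.Y119.HZ.A1 n D₀ b j k) k j) :=
        Finset.sum_congr rfl fun k _ => mul_comm _ _
      rw [h2, ← h3, ← h1]
      rfl) (by
      intro i j
      have h1 := congrFun (congrFun (Pool.Agent.Y119.HZ.cf_Hp (n := n) (Q := Q) 0) j) i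
      rw [Pool.Agent.Y119.HY.Hq_zero, Matrix.one_apply] at h1
      have h2 : (if i = j then (1 : ℚ) else 0) = if j = i then 1 else 0 := by simp only [eq_comm]
      rw [h2, ← h1]
      rfl) (by
      rw [← Matrix.transpose_mul, Pool.Agent.Y119.HZ.mul_Wp hQ, Matrix.transpose_one]) (fun i j => gc (hH' j i))
      (fun i j => gc (Pool.Agent.Y119.HZ.SDc_Wp hH' j i))
  refine ⟨G, fun k δ D => ?_⟩
  obtain ⟨hA, hB⟩ := hmain k δ D
  have conv : ∀ (c : ℝ) (N : ℕ) (Ω : Matrix (Fin n) (Fin n) ℂ) (r₀ r r' : ℕ), r' ≤ r₀ → r + k ≤ r₀ ∨ r = 0 →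
      Pool.Agent.Results.MP_cbf1af_ag.AllTuplesDegenerating.Bound Ω.transpose (Nt n)
        (Pool.Agent.Y119.HZ.Hp n Q).transpose G k δ D r₀ c N → Bound β Ω G k δ D r r' c N := by
    intro c N Ω r₀ r r' hr' hr h t ht hsep K _ hK R S P hP
    have htr : ∀ U : (Matrix (Fin n) (Fin n) K)ˣ, ∃ V : (Matrix (Fin n) (Fin n) K)ˣ,
        (V : Matrix (Fin n) (Fin n) K) = (U : Matrix (Fin n) (Fin n) K).transpose := fun U =>
      ⟨⟨(U : Matrix (Fin n) (Fin n) K).transpose, (U⁻¹ : (Matrix (Fin n) (Fin n) K)ˣ).val.transpose, by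
        rw [← Matrix.transpose_mul, Units.inv_mul, Matrix.transpose_one], by
        rw [← Matrix.transpose_mul, Units.mul_inv, Matrix.transpose_one]⟩, rfl⟩
    choose τ hτ using htr
    have h1 := h t ht hsep K hK (fun l => τ (S l)) (fun l => τ (R l))
    have h2 : (fun l => ((τ (S l) : (Matrix (Fin n) (Fin n) K)ˣ) : Matrix (Fin n) (Fin n) K).map (algebraMap K ℂ) *
        Pool.Agent.Results.MP_cbf1af_ag.AllTuplesDegenerating.periods Ω.transpose (Nt n)
          (Pool.Agent.Y119.HZ.Hp n Q).transpose (t l) *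
        ((τ (R l) : (Matrix (Fin n) (Fin n) K)ˣ) : Matrix (Fin n) (Fin n) K).map (algebraMap K ℂ)) =
        fun l => (P l).transpose := by
      funext l
      have e1 : (P l).transpose = ((S l : Matrix (Fin n) (Fin n) K).map (algebraMap K ℂ)).transpose *
          ((Pool.Agent.Y119.HZ.Yt n Q (t l) * Ω).transpose *
            ((R l : Matrix (Fin n) (Fin n) K).map (algebraMap K ℂ)).transpose) := by
        rw [hP l, Y_eq, Matrix.transpose_mul]
        congr 1
        exact Matrix.transpose_mul _ _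
      rw [e1, hτ, hτ, periods_eq]
      exact Matrix.mul_assoc _ _ _
    rw [h2] at h1
    have h3 : TrdegGe r₀ δ K (withLogs (fun l => ((Real.log (t l) : ℝ) : ℂ)) P) := trdeg_tr h1
    refine ⟨?_, h3.mono hr'⟩
    rcases hr with hr | hr
    · exact (h3.mono hr).drop
    · subst hr
      refine ⟨fun i => i.elim0, fun i => i.elim0, fun F _ h0 => ?_⟩
      have h4 : F = MvPolynomial.C (MvPolynomial.coeff 0 F) := MvPolynomial.eq_C_of_isEmpty F
      rw [h4, MvPolynomial.aeval_C] at h0
      rw [h4, (map_eq_zero_iff (algebraMap K ℂ) (algebraMap K ℂ).injective).1 h0, map_zero]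
  constructor
  · obtain ⟨c, N₀, hc, h⟩ := hA
    refine ⟨c, N₀, hc, fun N hN Ω hΩ => ?_⟩
    refine conv c N Ω _ _ _ ?_ ?_ (h N hN Ω.transpose (by rwa [Matrix.isUnit_transpose]))
    · exact Nat.mul_le_mul_left _ (Nat.add_le_add_right hrank 1)
    · rcases k with _ | k
      · right; simp
      · by_cases h0 : (k + 1 - 1) * (m * (2 * m + 1)) - 1 = 0
        · right; exact h0
        · left
          have h1 : (k + 1 - 1) * (m * (2 * m + 1) + 1) ≤ (k + 1 - 1) *
              (Pool.Agent.Results.MP_cbf1af_ag.AllTuplesDegenerating.rank (Pool.Agent.Y119.HZ.Hp n Q).transpose + 1) :=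
            Nat.mul_le_mul_left _ (Nat.add_le_add_right hrank 1)
          refine le_trans ?_ h1
          rw [Nat.add_sub_cancel] at h0 ⊢
          have h5 : k * (m * (2 * m + 1) + 1) = k * (m * (2 * m + 1)) + k := by ring
          rw [h5]
          omega
  · intro Ω hΩ s ω hω
    obtain ⟨c, N₀, hc, h⟩ := hB Ω.transpose (by rwa [Matrix.isUnit_transpose]) s ω (fun i j => hω j i)
    refine ⟨c, N₀, hc, fun N hN => ?_⟩
    refine conv c N Ω _ _ _ ?_ ?_ (h N hN)
    · exact Nat.sub_le_sub_right (Nat.mul_le_mul_left _ (Nat.add_le_add_right hrank 1)) _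
    · by_cases h0 : k * (m * (2 * m + 1)) - (s + 1) = 0
      · right; exact h0
      · left
        have h1 : k * (m * (2 * m + 1) + 1) ≤ k *
            (Pool.Agent.Results.MP_cbf1af_ag.AllTuplesDegenerating.rank (Pool.Agent.Y119.HZ.Hp n Q).transpose + 1) :=
          Nat.mul_le_mul_left _ (Nat.add_le_add_right hrank 1)
        have h5 : k * (m * (2 * m + 1) + 1) = k * (m * (2 * m + 1)) + k := by ring
        rw [h5] at h1
        omega

end Pool.Agent.Results.MP_57341d_ag.HypergeometricAllTuples
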