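import Pool.Agent.X120.Geo.LowLeg

/-!
# The transcendence degree of the periods of all tuples of Legendre curves with parameters in a multiplicative group

Let `E_x : y² = x'(x' - 1)(x' - x)` be the Legendre curve and `q_1, …, q_r ≥ 2` integers. We consider the fibres at the
points `x = 1 / v`, `v = q_1^(n_1) ⋯ q_r^(n_r)`, of a finitely generated multiplicative group; for `r = 1` this is the
geometric sequence `1 / q^n`. The periods of `E_x` are, up to the Legendre relation, `π`, `K(x)`, `E(x)` and `K(1 - x)`, and the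
Mumford-Tate group of a product of `k` curves, pairwise not isogenous and without complex multiplication, has dimension
`3 k + 1`.

For **all** `k`-tuples of such fibres whose exponents lie in a window `A_j ≤ n_j ≤ A_j + c (A_1 + … + A_r)`, with `c > 0` not
depending on `A`, and all number fields `L` of degree at most `D`, at least `3 k - (r + 2)` of the `3 k` numbers `K(x_i)`,
`E(x_i)`, `K(1 - x_i)` satisfy no relation over `L` of degree at most `δ` in each of them. There are no exceptional tuples, and
no condition on the size of the coefficients. For the geometric sequence `1 / q^n` and all `k` distinct exponents between `N`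
and `(1 + c) N` this gives `3 k - 3` of the expected `3 k + 1`.
-/

set_option autoImplicit false

namespace Pool.Agent.Results.MP_57341d_ag.MultiplicativeGroupAllTuples

open Module

/-- Complete elliptic integral of the first kind, `K(s) = ∫_0^{π/2} dθ / √(1 - s sin² θ)`. -/
noncomputable def K (s : ℝ) : ℝ := ∫ θ in (0 : ℝ)..(Real.pi / 2), 1 / √(1 - s * Real.sin θ ^ 2)

/-- Complete elliptic integral of the second kind, `E(s) = ∫_0^{π/2} √(1 - s sin² θ) dθ`. -/
noncomputable def E (s : ℝ) : ℝ := ∫ θ in (0 : ℝ)..(Real.pi / 2), √(1 - s * Real.sin θ ^ 2)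

/-- The parameter `1 / (q_1^(n_1) ⋯ q_r^(n_r))`. -/
noncomputable def par {r : ℕ} (q n : Fin r → ℕ) : ℝ := 1 / ((∏ j, q j ^ n j : ℕ) : ℝ)

/-- The `3 k` numbers `K(x_i)`, `E(x_i)`, `K(1 - x_i)`, where `x_i` is the parameter with exponents `n i`. -/
noncomputable def periods {r k : ℕ} (q : Fin r → ℕ) (n : Fin k → Fin r → ℕ) (p : Fin k × Fin 3) : ℂ :=
  ![(K (par q (n p.1)) : ℂ), (E (par q (n p.1)) : ℂ), (K (1 - par q (n p.1)) : ℂ)] p.2

/-- The transcendence degree of the numbers `z` is at least `e` in bounded degree: `e` of them satisfy no relation over `L`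
of degree at most `δ` in each. -/
def TrdegGe (e δ : ℕ) (L : IntermediateField ℚ ℂ) {ι : Type} (z : ι → ℂ) : Prop :=
  ∃ τ : Fin e → ι, Function.Injective τ ∧ ∀ P : MvPolynomial (Fin e) L, (∀ i, P.degreeOf i ≤ δ) →
    MvPolynomial.aeval (fun i => z (τ i)) P = 0 → P = 0

/-- All `k`-tuples of Legendre curves with different parameters of exponents in a window have at least `3 k - (r + 2)`
periods which are independent in bounded degree, over all number fields of bounded degree. -/
theorem result {r : ℕ} (q : Fin r → ℕ) (hq : ∀ j, 2 ≤ q j) (k δ D : ℕ) :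
    ∃ M : ℕ, 1 ≤ M ∧ ∀ (A : Fin r → ℕ) (n : Fin k → Fin r → ℕ), M ≤ ∑ j, A j →
      (∀ i j, A j ≤ n i j ∧ M * n i j ≤ M * A j + ∑ j, A j) → Function.Injective (fun i => par q (n i)) →
      ∀ (L : IntermediateField ℚ ℂ) [FiniteDimensional ℚ L], finrank ℚ L ≤ D →
        TrdegGe (3 * k - (r + 2)) δ L (periods q n) := by
  obtain ⟨M, hM, h⟩ := X120.Geo.low_legendre q hq k δ D
  rw [mul_comm k 3] at h
  refine ⟨M, by omega, fun A n hA hn hinj L _ hL => ?_⟩
  obtain ⟨τ, hτ, hLI⟩ := h A n hA hn (fun i j hij => hinj (by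
    show (1 : ℝ) / ((X120.Geo.mult q (n i) : ℕ) : ℝ) = 1 / ((X120.Geo.mult q (n j) : ℕ) : ℝ)
    rw [show X120.Geo.mult q (n i) = X120.Geo.mult q (n j) from hij])) L hL
  exact ⟨τ, hτ, fun P hP h0 => X120.Geo.LIb_mv hLI P hP h0⟩

end Pool.Agent.Results.MP_57341d_ag.MultiplicativeGroupAllTuples
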