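import Pool.Agent.X265.WR.Cnt

/-!
# The period conjecture in bounded degree and height for Weil restrictions of Jacobians of hyperelliptic curves

Let `L` be a number field of degree `d`, let `n = 2 g` be even and `e_0, …, e_n ∈ L` distinct. Let `J` be the Jacobian of the
curve `C_e : y² = ∏ (x - e_r)` over `L` and let `A = Res_{L/ℚ} J`, an abelian variety over `ℚ` of dimension `d g`. The motive
`h¹(A)` over `ℚ` has the periods of all the conjugate curves `C_(σ e)`, `σ : L → ℂ`; they are the fibres of one family at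
conjugate points and not at independent points of the base. For general `e` the Mumford-Tate group of `A` consists of the
`d`-tuples of elements of `GSp_n` with equal multipliers, and has the dimension `d n (n + 1) / 2 + 1`. We prove that for almost all
`e ∈ L^(n + 1)` all polynomial relations of bounded degree and height between the periods of `A` and `π` (or arbitrary constants)
hold on the whole torsor under this group.
-/

set_option autoImplicit false

open Filter NumberField Module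

namespace Pool.Agent.Results.MP_57341d_ag.WeilRestrictions

open Pool.Agent Pool.Agent.Y890.MV Pool.Agent.Y890.HE

/-- The branch points `σ (e_(π_σ(r)))` of the conjugates `C_(σ e)` of the curve `C_e`, numbered by the permutations `π_σ`. -/
def branch {L : Type} [Field L] {n : ℕ} (e : Fin (n + 1) → L) (π : (L →+* ℂ) → Equiv.Perm (Fin (n + 1))) :
    (Σ _ : L →+* ℂ, Fin (n + 1)) → ℂ := fun x => x.1 (e (π x.1 x.2))

open Classical in
/-- The pairs `(b, q)` of an `(n + 1)`-tuple `b` of integers of `L` all of whose conjugates have absolute value at most `T` and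
of a denominator `q ∈ [1, T]`, such that for some numberings the branch points of the conjugates of the curve
`y² = ∏ (x - b_r / q)` are in `InnerM (Conf n) k` (increasing real parts, norm at most `k`, distance at least `1 / k` from the
boundary) and not generic over `K`. -/
def Exceptional (L : Type) [Field L] [NumberField L] (n k : ℕ) (K : Type) [Field K] [NumberField K] (io : K →+* ℂ)
    (ξ : Fin k → ℂ) (T : ℝ) : Set ((Fin (n + 1) → 𝓞 L) × ℕ) :=
  {p | (∀ (r : Fin (n + 1)) (σ : L →+* ℂ), ‖σ (p.1 r : L)‖ ≤ T) ∧ 1 ≤ p.2 ∧ (p.2 : ℝ) ≤ T ∧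
    ∃ π : (L →+* ℂ) → Equiv.Perm (Fin (n + 1)),
      branch (fun r => (p.1 r : L) / p.2) π ∈ InnerM (Conf fun _ : L →+* ℂ => n) k ∧
      ¬ Generic (fun _ : L →+* ℂ => n) k K io ξ T (branch (fun r => (p.1 r : L) / p.2) π)}

/-- Let `L` be a number field of degree `d` and let `n` be even.
(1) The period matrices of the conjugates of a curve `y² = ∏ (x - e_r)`, `r ≤ n`, `e_r ∈ L`, and `π` form a point of the torsor.
(2) There are `ω → ∞` and `C` such that for all large `T`, all number fields `K ⊂ ℂ` of degree at most `ω T` which contain the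
conjugates of `L` and all complex numbers `ξ a`, `a < ω T`: for all but at most `C T ^ (d (n + 1) + 2 / ω T)` of the (about
`T ^ (d (n + 1) + 1)`) pairs `(b, q)`, if the branch points of the conjugates of the curve `y² = ∏ (x - b_r / q)` are in
`InnerM (Conf n) (ω T)`, all relations of degree at most `ω T`, with coefficients in the integers of `K` of size at most
`T ^ ω T`, between the periods of all the conjugate curves and the powers of `π` hold on the torsor, and the relations with the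
constants `ξ` hold at all `(Y, π)` in the torsor. -/
theorem result (L : Type) [Field L] [NumberField L] (n : ℕ) (hn : Even n) :
    (∀ (e : Fin (n + 1) → L) (π : (L →+* ℂ) → Equiv.Perm (Fin (n + 1))), branch e π ∈ Conf (fun _ : L →+* ℂ => n) →
      (pm (fun _ : L →+* ℂ => n) (branch e π), (Real.pi : ℂ)) ∈ torsor (fun _ : L →+* ℂ => n) (branch e π)) ∧
    ∃ (ω : ℝ → ℕ) (T₀ C : ℝ), Tendsto ω atTop atTop ∧ Monotone ω ∧ ∀ T, T₀ ≤ T → 0 < ω T ∧
      ∀ (K : Type) [Field K] [NumberField K], finrank ℚ K ≤ ω T → ∀ io : K →+* ℂ,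
        (∀ σ : L →+* ℂ, ∃ τ : L →+* K, io.comp τ = σ) → ∀ ξ : Fin (ω T) → ℂ,
          (Exceptional L n (ω T) K io ξ T).Finite ∧
          ((Exceptional L n (ω T) K io ξ T).ncard : ℝ) ≤ C * T ^ ((finrank ℚ L * (n + 1) : ℕ) + 2 / (ω T : ℝ)) := by
  classical
  refine ⟨fun e π he => pm_mem (fun _ => hn) he, ?_⟩
  have : Nonempty (L →+* ℂ) := inferInstance
  obtain ⟨ω, T₀, hω, hωm, H⟩ := Y890.HE.main (fun _ : L →+* ℂ => n) (fun _ => hn)
  obtain ⟨C, hC, hcount⟩ := X265.WR.count L n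
  set Pm := (L →+* ℂ) → Equiv.Perm (Fin (n + 1)) with hPm
  refine ⟨ω, max T₀ 1, Fintype.card Pm * C, hω, hωm, fun T hT => ?_⟩
  have hT0 : T₀ ≤ T := (le_max_left _ _).trans hT
  have hT1 : 1 ≤ T := (le_max_right _ _).trans hT
  have hTp : 0 < T := by linarith
  obtain ⟨hωT, H'⟩ := H T hT0
  refine ⟨hωT, ?_⟩
  intro K _ _ hK io hτ ξ
  obtain ⟨⟨Φ, hΦc, hΦ, hΦz⟩, -, -⟩ := H' K hK io ξ
  choose τ hτ using hτ
  set m := ⌊T ^ ((ω T : ℝ)⁻¹)⌋₊ with hm
  have hmT : (m : ℝ) ≤ T ^ ((ω T : ℝ)⁻¹) := Nat.floor_le (by positivity)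
  set D := finrank ℚ L * (n + 1) with hD
  have hD1 : 1 ≤ D := Nat.mul_pos finrank_pos (Nat.succ_pos _)
  -- the pieces
  set S : Pm → ℕ → MvPolynomial (Σ _ : L →+* ℂ, Fin (n + 1)) ℂ → Set ((Fin (n + 1) → 𝓞 L) × ℕ) := fun π q P =>
    (fun b => (b, q)) '' {b : Fin (n + 1) → 𝓞 L | (∀ r, house (b r : L) ≤ T) ∧
      MvPolynomial.eval (X265.WR.conj L n (fun r => (b r : L) / q) π) P = 0} with hS
  have hsub : Exceptional L n (ω T) K io ξ T ⊆ ⋃ π ∈ (Finset.univ : Finset Pm), ⋃ q ∈ Finset.Icc 1 ⌊T⌋₊, ⋃ P ∈ Φ, S π q P := by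
    rintro ⟨b, q⟩ ⟨hb, hq1, hqT, π, hin, hgen⟩
    set e' : (Σ i : L →+* ℂ, Fin ((fun _ : L →+* ℂ => n) i + 1)) → K := fun x => τ x.1 ((b (π x.1 x.2) : L) / q) with he'
    have hio : (fun j => io (e' j)) = branch (fun r => (b r : L) / q) π := by
      funext x
      show io (τ x.1 _) = x.1 _
      have h1 := RingHom.congr_fun (hτ x.1) ((b (π x.1 x.2) : L) / q)
      exact h1
    have hmem : e' ∈ Y890.HE.Exceptional (fun _ : L →+* ℂ => n) (ω T) K io ξ T := by
      refine ⟨fun x => ?_, ?_, ?_⟩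
      · refine ⟨RingOfIntegers.mapRingHom (τ x.1) (b (π x.1 x.2)), (q : 𝓞 K), ?_, ?_, ?_, ?_⟩
        · have : q ≠ 0 := by
            have : 1 ≤ q := hq1
            omega
          exact_mod_cast this
        · refine Y120.house_le K hTp.le fun φ => ?_
          exact hb (π x.1 x.2) (φ.comp (τ x.1))
        · refine Y120.house_le K hTp.le fun φ => ?_
          have h1 : φ ((q : 𝓞 K) : K) = (q : ℂ) := by simp
          rw [h1, Complex.norm_natCast]
          exact hqT
        · show τ x.1 ((b (π x.1 x.2) : L) / q) = _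
          rw [map_div₀, map_natCast]
          congr 1
      · show (fun j => io (e' j)) ∈ _
        rw [hio]
        exact hin
      · show ¬ Generic _ _ _ _ _ _ (fun j => io (e' j))
        rw [hio]
        exact hgen
    obtain ⟨P, hP, hPz⟩ := hΦz _ ⟨e', hmem, rfl⟩
    rw [Set.mem_iUnion₂]
    refine ⟨π, Finset.mem_univ _, ?_⟩
    rw [Set.mem_iUnion₂]
    refine ⟨q, Finset.mem_Icc.2 ⟨hq1, Nat.le_floor hqT⟩, ?_⟩
    rw [Set.mem_iUnion₂]
    refine ⟨P, hP, b, ⟨fun r => ?_, ?_⟩, rfl⟩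
    · exact Y120.house_le L hTp.le fun φ => hb r φ
    · have h2 : MvPolynomial.eval (fun j => io (e' j)) P = 0 := hPz
      rw [hio] at h2
      exact h2
  have hpiece : ∀ π ∈ (Finset.univ : Finset Pm), ∀ q ∈ Finset.Icc 1 ⌊T⌋₊, ∀ P ∈ Φ,
      (S π q P).Finite ∧ ((S π q P).ncard : ℝ) ≤ C * m * T ^ (D - 1) := by
    intro π _ q hq P hP
    rw [Finset.mem_Icc] at hq
    obtain ⟨h1, h2⟩ := hcount π q hq.1 P (hΦ P hP).1 T hT1
    refine ⟨h1.image _, ?_⟩
    refine le_trans (Nat.cast_le.2 (Set.ncard_image_le h1 (f := fun b => (b, q)))) (h2.trans ?_)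
    have h4 : (P.totalDegree : ℝ) ≤ m := by exact_mod_cast (hΦ P hP).2
    have h5 : (0 : ℝ) ≤ T ^ (D - 1) := by positivity
    exact mul_le_mul_of_nonneg_right (mul_le_mul_of_nonneg_left h4 (by linarith)) h5
  have hfin : (⋃ π ∈ (Finset.univ : Finset Pm), ⋃ q ∈ Finset.Icc 1 ⌊T⌋₊, ⋃ P ∈ Φ, S π q P).Finite :=
    Set.Finite.biUnion (Finset.finite_toSet _) fun π hπ => Set.Finite.biUnion (Finset.finite_toSet _) fun q hq =>
      Set.Finite.biUnion (Finset.finite_toSet _) fun P hP => (hpiece π hπ q hq P hP).1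
  refine ⟨hfin.subset hsub, ?_⟩
  have h1 : (Exceptional L n (ω T) K io ξ T).ncard ≤ ∑ π ∈ (Finset.univ : Finset Pm), ∑ q ∈ Finset.Icc 1 ⌊T⌋₊, ∑ P ∈ Φ, (S π q P).ncard := by
    refine (Set.ncard_le_ncard hsub hfin).trans ?_
    refine (Finset.set_ncard_biUnion_le _ _).trans (Finset.sum_le_sum fun π _ => ?_)
    refine (Finset.set_ncard_biUnion_le _ _).trans (Finset.sum_le_sum fun q _ => ?_)
    exact Finset.set_ncard_biUnion_le _ _
  have h2 : ((Exceptional L n (ω T) K io ξ T).ncard : ℝ) ≤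
      ∑ π ∈ (Finset.univ : Finset Pm), ∑ q ∈ Finset.Icc 1 ⌊T⌋₊, ∑ P ∈ Φ, ((S π q P).ncard : ℝ) := by exact_mod_cast h1
  have h3 : ∑ π ∈ (Finset.univ : Finset Pm), ∑ q ∈ Finset.Icc 1 ⌊T⌋₊, ∑ P ∈ Φ, ((S π q P).ncard : ℝ) ≤
      ∑ _π ∈ (Finset.univ : Finset Pm), ∑ _q ∈ Finset.Icc 1 ⌊T⌋₊, ∑ _P ∈ Φ, (C * m * T ^ (D - 1)) :=
    Finset.sum_le_sum fun π hπ => Finset.sum_le_sum fun q hq => Finset.sum_le_sum fun P hP => (hpiece π hπ q hq P hP).2
  refine h2.trans (h3.trans ?_)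
  rw [Finset.sum_const, Finset.sum_const, Finset.sum_const, Finset.card_univ, Nat.card_Icc, Nat.add_sub_cancel]
  simp only [nsmul_eq_mul]
  have h4 : ((⌊T⌋₊ : ℕ) : ℝ) ≤ T := Nat.floor_le hTp.le
  have h5 : (Φ.card : ℝ) ≤ T ^ ((ω T : ℝ)⁻¹) := le_trans (by exact_mod_cast hΦc) hmT
  have h6 : T ^ ((D : ℝ) + 2 / (ω T : ℝ)) = T * (T ^ ((ω T : ℝ)⁻¹) * (T ^ ((ω T : ℝ)⁻¹) * T ^ (D - 1))) := by
    have h7 : T * T ^ ((ω T : ℝ)⁻¹ + ((ω T : ℝ)⁻¹ + ((D - 1 : ℕ) : ℝ))) =
        T ^ (1 + ((ω T : ℝ)⁻¹ + ((ω T : ℝ)⁻¹ + ((D - 1 : ℕ) : ℝ)))) := by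
      rw [Real.rpow_add hTp 1, Real.rpow_one]
    rw [← Real.rpow_natCast T (D - 1), ← Real.rpow_add hTp, ← Real.rpow_add hTp, h7]
    congr 1
    rw [Nat.cast_sub hD1, Nat.cast_one]
    ring
  rw [h6]
  have hTi : 0 ≤ T ^ ((ω T : ℝ)⁻¹) := by positivity
  have hTD : 0 ≤ T ^ (D - 1) := by positivity
  have hC0 : 0 ≤ C := by linarith
  calc (Fintype.card Pm : ℝ) * ((⌊T⌋₊ : ℝ) * ((Φ.card : ℝ) * (C * m * T ^ (D - 1)))) ≤
      (Fintype.card Pm : ℝ) * (T * (T ^ ((ω T : ℝ)⁻¹) * (C * T ^ ((ω T : ℝ)⁻¹) * T ^ (D - 1)))) := by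
        refine mul_le_mul_of_nonneg_left ?_ (Nat.cast_nonneg _)
        refine mul_le_mul h4 ?_ (by positivity) hTp.le
        refine mul_le_mul h5 ?_ (by positivity) hTi
        exact mul_le_mul_of_nonneg_right (mul_le_mul_of_nonneg_left hmT hC0) hTD
    _ = _ := by ring

end Pool.Agent.Results.MP_57341d_ag.WeilRestrictions
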